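import Pool.Agent.H7.IA.Stmts

/-!
Row LOT of the board ia13 (MP_fd41b2_co), helper65: the local inequality.
-/

set_option autoImplicit false

open Finset

namespace Pool.IA7

open Pool.Agent.H23.KT Pool.Agent.H46.KW Pool.KQ Pool.GT7 Pool.GU7 Pool.HZ7

namespace LOTx

theorem pow_le (n : ℕ) (e : ℝ) (h0 : 0 ≤ e) (h1 : e ≤ 1) : (1 + e) ^ n ≤ 1 + 2 ^ n * e := by
  have h : (1 + e) ^ n ≤ 1 + (2 ^ n - 1) * e := by
    induction n with
    | zero => simp
    | succ n ih =>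
      have h2 : (1 : ℝ) ≤ 2 ^ n := one_le_pow₀ (by norm_num)
      have h3 : (1 + e) ^ (n + 1) ≤ (1 + (2 ^ n - 1) * e) * (1 + e) := by
        rw [pow_succ]
        exact mul_le_mul_of_nonneg_right ih (by linarith)
      refine h3.trans ?_
      have h4 : e * e ≤ e := by nlinarith
      have h5 : (2 ^ n - 1) * (e * e) ≤ (2 ^ n - 1) * e :=
        mul_le_mul_of_nonneg_left h4 (by linarith)
      have h6 : (2 : ℝ) ^ (n + 1) = 2 * 2 ^ n := by rw [pow_succ]; ring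
      rw [h6]
      nlinarith
  have h2 : (2 ^ n - 1) * e ≤ 2 ^ n * e := by nlinarith
  linarith

/-- the error of the number of cliques -/
theorem H2 (c f A N x M e E C' eps ap : ℝ) (n : ℕ) (hA : 0 ≤ A) (hx : 0 ≤ x)
    (hxC : x ≤ 2 * C') (hM : 0 ≤ M) (he0 : 0 ≤ e) (he1 : e ≤ 1) (hcf : 0 ≤ c * f)
    (hap : M * ap = c * f * A) (hN : N ≤ (1 + e) ^ n * ap)
    (heE : e ≤ E) (hE : c * f * (2 * C') * 2 ^ n * E ≤ eps / 8) :
    M * (N * x) ≤ c * f * A * x + eps / 8 * A := by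
  have h1 : M * (N * x) ≤ M * ((1 + e) ^ n * ap * x) :=
    mul_le_mul_of_nonneg_left (mul_le_mul_of_nonneg_right hN hx) hM
  have h2 : M * ((1 + e) ^ n * ap * x) = c * f * A * x * (1 + e) ^ n := by
    calc M * ((1 + e) ^ n * ap * x) = (M * ap) * x * (1 + e) ^ n := by ring
      _ = _ := by rw [hap]
  have h3 : c * f * A * x * (1 + e) ^ n ≤ c * f * A * x * (1 + 2 ^ n * e) :=
    mul_le_mul_of_nonneg_left (pow_le n e he0 he1)
      (mul_nonneg (mul_nonneg hcf hA) hx)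
  have h4 : c * f * A * x * (1 + 2 ^ n * e) = c * f * A * x + (c * f * x * 2 ^ n * e) * A := by ring
  have h5 : c * f * x * 2 ^ n * e ≤ c * f * (2 * C') * 2 ^ n * E := by
    have h6 : c * f * x * 2 ^ n ≤ c * f * (2 * C') * 2 ^ n :=
      mul_le_mul_of_nonneg_right (mul_le_mul_of_nonneg_left hxC hcf) (by positivity)
    exact mul_le_mul h6 heE he0 (mul_nonneg (mul_nonneg hcf (by linarith)) (by positivity))
  have h6 : (c * f * x * 2 ^ n * e) * A ≤ eps / 8 * A :=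
    mul_le_mul_of_nonneg_right (h5.trans hE) hA
  linarith

/-- the error of the weights -/
theorem H3 (c f A Aw M mmS tt e E C a rho bf ch eps fm : ℝ) (n : ℕ) (ap : ℝ)
    (hAw : 0 ≤ Aw) (hA : A = Aw * a) (ha : 0 ≤ a) (hM : 0 ≤ M)
    (he0 : 0 ≤ e) (he1 : e ≤ 1) (hcf : 0 ≤ c * f) (hch : 0 ≤ ch) (hbf : 0 ≤ bf) (hfm : 0 ≤ fm)
    (htt : 0 ≤ tt) (httC : tt ≤ C * a)
    (hap : M * ap = c * f * Aw) (hmm : mmS ≤ tt * ((1 + e) ^ n * ap) * (rho + bf / 2 * fm))
    (hrho : c * f * rho = ch / 2) (heE : e ≤ E)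
    (hE : C * 2 ^ n * (ch / 2) * E ≤ eps / 16) (hE2 : 2 ^ n * E ≤ 1)
    (hf : C * (c * f) * bf * fm ≤ eps / 16) :
    M * mmS ≤ tt / 2 * ch * Aw + eps / 8 * A := by
  have h1 : M * mmS ≤ M * (tt * ((1 + e) ^ n * ap) * (rho + bf / 2 * fm)) :=
    mul_le_mul_of_nonneg_left hmm hM
  have h2 : M * (tt * ((1 + e) ^ n * ap) * (rho + bf / 2 * fm)) =
      tt * Aw * ((ch / 2 + c * f * (bf / 2 * fm)) * (1 + e) ^ n) := by
    calc M * (tt * ((1 + e) ^ n * ap) * (rho + bf / 2 * fm)) =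
        (M * ap) * tt * (1 + e) ^ n * (rho + bf / 2 * fm) := by ring
      _ = tt * Aw * ((c * f * rho + c * f * (bf / 2 * fm)) * (1 + e) ^ n) := by rw [hap]; ring
      _ = _ := by rw [hrho]
  have hp := pow_le n e he0 he1
  have h2n : (0 : ℝ) < 2 ^ n := by positivity
  have h2e : 2 ^ n * e ≤ 2 ^ n * E := mul_le_mul_of_nonneg_left heE h2n.le
  have hp2 : (1 + e) ^ n ≤ 2 := by linarith
  have h3 : (ch / 2 + c * f * (bf / 2 * fm)) * (1 + e) ^ n ≤
      ch / 2 + ch / 2 * (2 ^ n * E) + c * f * bf * fm := by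
    have h4 : ch / 2 * (1 + e) ^ n ≤ ch / 2 * (1 + 2 ^ n * E) :=
      mul_le_mul_of_nonneg_left (by linarith) (by linarith)
    have h5 : c * f * (bf / 2 * fm) * (1 + e) ^ n ≤ c * f * (bf / 2 * fm) * 2 :=
      mul_le_mul_of_nonneg_left hp2 (mul_nonneg hcf (mul_nonneg (by linarith) hfm))
    nlinarith
  have h4 : tt * Aw * ((ch / 2 + c * f * (bf / 2 * fm)) * (1 + e) ^ n) ≤
      tt * Aw * (ch / 2 + ch / 2 * (2 ^ n * E) + c * f * bf * fm) :=
    mul_le_mul_of_nonneg_left h3 (mul_nonneg htt hAw)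
  have hE0 : 0 ≤ E := he0.trans heE
  have hq0 : 0 ≤ ch / 2 * (2 ^ n * E) + c * f * bf * fm := by
    have : 0 ≤ c * f * bf * fm := mul_nonneg (mul_nonneg hcf hbf) hfm
    have : 0 ≤ ch / 2 * (2 ^ n * E) := by positivity
    linarith
  have h5 : tt * Aw * (ch / 2 * (2 ^ n * E) + c * f * bf * fm) ≤
      C * a * Aw * (ch / 2 * (2 ^ n * E) + c * f * bf * fm) :=
    mul_le_mul_of_nonneg_right (mul_le_mul_of_nonneg_right httC hAw) hq0
  have h6 : C * a * Aw * (ch / 2 * (2 ^ n * E) + c * f * bf * fm) =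
      (C * 2 ^ n * (ch / 2) * E + C * (c * f) * bf * fm) * A := by rw [hA]; ring
  have hA0 : 0 ≤ A := by rw [hA]; exact mul_nonneg hAw ha
  have h7 : (C * 2 ^ n * (ch / 2) * E + C * (c * f) * bf * fm) * A ≤ eps / 8 * A :=
    mul_le_mul_of_nonneg_right (by linarith) hA0
  nlinarith

/-- a lower bound for the power of the rounded size -/
theorem H9 (a e lo x c C' eps E : ℝ) (n : ℕ) (ha : 2 ≤ a) (he0 : 0 ≤ e) (he1 : e ≤ 1 / 2)
    (hlo : (1 - e) * a - 1 ≤ lo) (hx : 0 ≤ x) (hxC : x ≤ 2 * C') (hc : 0 ≤ c) (heE : e ≤ E)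
    (hE : c * (2 * C') * n * E ≤ eps / 8) (hK : c * (2 * C') * n ≤ eps / 8 * a) :
    c * x * a ^ n - eps / 4 * a ^ n ≤ x * (c * lo ^ n) := by
  have ha0 : (0 : ℝ) < a := by linarith
  have hai : a * (1 / a) = 1 := by field_simp
  have hi2 : 1 / a ≤ 1 / 2 := one_div_le_one_div_of_le (by norm_num) ha
  have hi0 : 0 < 1 / a := by positivity
  set y := e + 1 / a with hy
  have hy1 : y ≤ 1 := by rw [hy]; linarith
  have h1 : a * (1 - y) ≤ lo := by
    have : a * (1 - y) = (1 - e) * a - a * (1 / a) := by rw [hy]; ring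
    rw [this, hai]
    exact hlo
  have h2 : (a * (1 - y)) ^ n ≤ lo ^ n :=
    pow_le_pow_left₀ (mul_nonneg ha0.le (by linarith)) h1 n
  have h3 : 1 + (n : ℝ) * (-y) ≤ (1 + -y) ^ n := one_add_mul_le_pow (by linarith) n
  have h4 : a ^ n * (1 - n * y) ≤ lo ^ n := by
    refine le_trans ?_ h2
    rw [mul_pow]
    refine mul_le_mul_of_nonneg_left ?_ (by positivity)
    have e1 : (1 - y) = 1 + -y := by ring
    rw [e1]
    linarith
  have hcx : 0 ≤ x * c := mul_nonneg hx hc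
  have h5 : x * c * (a ^ n * (1 - n * y)) ≤ x * c * lo ^ n := mul_le_mul_of_nonneg_left h4 hcx
  have hn : (0 : ℝ) ≤ n := Nat.cast_nonneg n
  have h6 : x * c * n * y ≤ eps / 4 := by
    have h7 : x * c * n ≤ c * (2 * C') * n := by
      have : x * c ≤ c * (2 * C') := by nlinarith
      exact mul_le_mul_of_nonneg_right this hn
    have h8 : x * c * n * e ≤ eps / 8 := by
      have h9 : x * c * n * e ≤ c * (2 * C') * n * E := by
        refine mul_le_mul h7 heE he0 ?_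
        exact (mul_nonneg hcx hn).trans h7
      linarith
    have h9 : x * c * n * (1 / a) ≤ eps / 8 := by
      have h10 : x * c * n ≤ eps / 8 * a := h7.trans hK
      have h11 : x * c * n * (1 / a) ≤ eps / 8 * a * (1 / a) :=
        mul_le_mul_of_nonneg_right h10 hi0.le
      have h12 : eps / 8 * a * (1 / a) = eps / 8 := by field_simp
      linarith
    rw [hy]
    linarith [h8, h9, mul_add (x * c * n) e (1 / a)]
  have hp : (0 : ℝ) ≤ a ^ n := by positivity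
  have h7 : x * c * n * y * a ^ n ≤ eps / 4 * a ^ n := mul_le_mul_of_nonneg_right h6 hp
  nlinarith

theorem mem_un {V : Type} [DecidableEq V] {b : ℕ} {P : Fin b → Finset V} {x : V} :
    x ∈ un P ↔ ∃ i, x ∈ P i := by
  unfold un
  rw [mem_biUnion]
  constructor
  · rintro ⟨i, -, h⟩
    exact ⟨i, h⟩
  · rintro ⟨i, h⟩
    exact ⟨i, mem_univ i, h⟩

theorem card_un {V : Type} [DecidableEq V] {G : SimpleGraph V} {b : ℕ} {P : Fin b → Finset V}
    (hP : Par G P) : (un P).card = ∑ i, (P i).card := by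
  unfold un
  refine card_biUnion fun i _ j _ hij => hP.dis i j hij

theorem card_W {V : Type} [DecidableEq V] {b : ℕ} {P : Fin b → Finset V}
    {W U : Finset V} (hd : ∀ i, Disjoint (P i) U) (hc : ∀ u, u ∈ W ↔ u ∈ U ∨ ∃ i, u ∈ P i) :
    W.card = (un P).card + U.card := by
  have h1 : W = un P ∪ U := by
    ext u
    rw [hc u, mem_union, mem_un]
    exact or_comm
  rw [h1, card_union_of_disjoint]
  rw [disjoint_left]
  intro u hu hu'
  obtain ⟨i, hi⟩ := mem_un.1 hu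
  exact disjoint_left.1 (hd i) hi hu'

theorem trv_card {V : Type} (G : SimpleGraph V) {b : ℕ} (P : Fin b → Finset V) :
    (trv G P).card ≤ ∏ i, (P i).card := by
  classical
  rw [← Fintype.card_piFinset]
  refine card_le_card fun x hx => ?_
  unfold trv at hx
  exact (mem_filter.1 hx).1

/-- the number of cliques in the union of the parts -/
theorem card_N {V : Type} [DecidableEq V] (h : TRVStmt) (G : SimpleGraph V) {b : ℕ}
    (P : Fin b → Finset V) (hP : Par G P) (D : ℝ) (hD : ∀ i, ((P i).card : ℝ) ≤ D) :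
    ((clq G (un P) b).card : ℝ) ≤ D ^ b := by
  have h1 : ((clq G (un P) b).card : ℝ) = ((trv G P).card : ℝ) := by
    have := (h G P hP).2 (fun _ => 1)
    simpa using this
  rw [h1]
  have h2 : (trv G P).card ≤ ∏ i, (P i).card := trv_card G P
  have h3 : ((trv G P).card : ℝ) ≤ ∏ i, ((P i).card : ℝ) := by
    have : ((trv G P).card : ℝ) ≤ ((∏ i, (P i).card : ℕ) : ℝ) := by exact_mod_cast h2
    rwa [Nat.cast_prod] at this
  refine h3.trans ?_
  refine (prod_le_prod (fun i _ => Nat.cast_nonneg _) (fun i _ => hD i)).trans ?_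
  rw [prod_const, card_univ, Fintype.card_fin]

/-- the sum over the cliques -/
theorem split {V : Type} [DecidableEq V] (G : SimpleGraph V) (p r : ℕ) (X U : Finset V) (x : ℝ) :
    ∑ L ∈ clq G X (p + 3), (x + mm G p r X L - ∑ z ∈ U, ww p r (nb G L z).card) =
      ((clq G X (p + 3)).card : ℝ) * x + ∑ L ∈ clq G X (p + 3), mm G p r X L -
        ∑ z ∈ U, TZ G p r X z := by
  rw [sum_sub_distrib, sum_add_distrib, sum_const, nsmul_eq_mul]
  congr 1
  unfold TZ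
  rw [sum_comm]

end LOTx

open LOTx in
theorem lot_thm (h1 : PWTStmt) (h2 : MLGStmt) (h3 : CMPStmt) (h4 : UCLStmt) (h5 : XLOStmt)
    (h6 : SPXStmt) (h7 : ZSTStmt) (h8 : TRVStmt) : LOTStmt := by
  intro p w r hprt C ε hC hε
  obtain ⟨hprz, hφ0, hφ1, -, -⟩ := h1 p w r hprt
  have hwp := hprt.wp
  have hrp := hprt.rp
  have hr1 : 1 ≤ r := by have := hprz.rb; omega
  have hrR : (1 : ℝ) ≤ r := by exact_mod_cast hr1
  have hrpR : (r : ℝ) ≤ p := by exact_mod_cast hrp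
  have hp0 : (0 : ℝ) ≤ p := Nat.cast_nonneg p
  set φ := pt p w r with hφ
  set c := c1 p w with hc
  have hc1 : 1 ≤ c := by
    rw [hc]
    unfold c1
    have : 0 < (p + 2).choose (w + 1) := Nat.choose_pos (by omega)
    exact_mod_cast this
  have hc0 : 0 < c := by linarith
  have hcφ : 0 < c * φ := mul_pos hc0 hφ0
  set ch : ℝ := ((p + 1).choose w : ℝ) with hch
  have hch0 : 0 ≤ ch := Nat.cast_nonneg _
  set ρ : ℝ := (r : ℝ) / (((p : ℝ) + 3 - r) * ((p : ℝ) + 2)) with hρ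
  have hbr : (0 : ℝ) < (p : ℝ) + 3 - r := by linarith
  have hρc : c * φ * ρ = ch / 2 := by
    have e1 : ((p + 2).choose (w + 1) : ℝ) * ((w : ℝ) + 1) = ((p : ℝ) + 2) * ch := by
      have := Nat.add_one_mul_choose_eq (p + 1) w
      rw [hch]
      have e2 : (((p + 1 + 1) * (p + 1).choose w : ℕ) : ℝ) =
          (((p + 1 + 1).choose (w + 1) * (w + 1) : ℕ) : ℝ) := by exact_mod_cast this
      push_cast at e2
      have e3 : (p + 1 + 1).choose (w + 1) = (p + 2).choose (w + 1) := rfl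
      rw [e3] at e2
      linarith
    rw [hc, hφ, hρ]
    unfold c1 pt
    have hr0 : (r : ℝ) ≠ 0 := by linarith
    have hp2 : (p : ℝ) + 2 ≠ 0 := by linarith
    have hb0 : (p : ℝ) + 3 - r ≠ 0 := hbr.ne'
    have e4 : ((p + 2).choose (w + 1) : ℝ) *
        (((w : ℝ) + 1) * ((p : ℝ) + 3 - r) / (2 * r)) *
        ((r : ℝ) / (((p : ℝ) + 3 - r) * ((p : ℝ) + 2))) =
        (((p + 2).choose (w + 1) : ℝ) * ((w : ℝ) + 1)) / (2 * ((p : ℝ) + 2)) := by
      field_simp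
    rw [e4, e1]
    field_simp
  have hb3 : (0 : ℝ) < (p : ℝ) + 3 := by linarith
  -- the choice of `f`
  obtain ⟨f₀, hf00, hf01, aC, hCMP⟩ := h3 p w hwp C (ε / 8) hC (by linarith)
  set Kf : ℝ := 16 * (C * (c * φ) * ((p : ℝ) + 3)) with hKf
  have hKf0 : 0 < Kf := by rw [hKf]; positivity
  set f : ℝ := min f₀ (ε / Kf) with hf
  have hf0 : 0 < f := lt_min hf00 (div_pos hε hKf0)
  have hff₀ : f ≤ f₀ := min_le_left _ _
  have hfK : C * (c * φ) * ((p : ℝ) + 3) * f ≤ ε / 16 := by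
    have e1 : f ≤ ε / Kf := min_le_right _ _
    have e2 : Kf * f ≤ ε := by
      rw [le_div_iff₀ hKf0] at e1
      linarith
    rw [hKf] at e2
    linarith
  refine ⟨f, hf0, hff₀.trans hf01, fun C' hC' => ?_⟩
  -- the choice of `e₀`
  obtain ⟨eZ, heZ0, heZ1, hZ⟩ := h7 p w r hprt (ε / (8 * C')) (by positivity)
  obtain ⟨aZ, hZST⟩ := hZ C hC
  set K1 : ℝ := 8 * (c * φ * (2 * C') * 2 ^ (p + 3)) with hK1
  set K2 : ℝ := 16 * (C * 2 ^ (p + 2) * (ch / 2)) + 1 with hK2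
  set K3 : ℝ := 8 * (c * (2 * C') * ((w + 1 : ℕ) : ℝ)) with hK3
  have hK10 : 0 < K1 := by rw [hK1]; positivity
  have hK20 : 0 < K2 := by rw [hK2]; positivity
  have hK30 : 0 < K3 := by rw [hK3]; positivity
  obtain ⟨E, hE0, hE1, hE2, hE3, hE4, hE5, hE6⟩ : ∃ E : ℝ, 0 < E ∧ E ≤ f₀ ∧ E ≤ eZ ∧
      K1 * E ≤ ε ∧ K2 * E ≤ ε ∧ K3 * E ≤ ε ∧ 2 ^ (p + 2) * E ≤ 1 := by
    refine ⟨min f₀ (min eZ (min (ε / K1) (min (ε / K2) (min (ε / K3) (1 / 2 ^ (p + 2)))))),
      ?_, ?_, ?_, ?_, ?_, ?_, ?_⟩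
    · refine lt_min hf00 (lt_min heZ0 (lt_min (div_pos hε hK10) (lt_min (div_pos hε hK20)
        (lt_min (div_pos hε hK30) (by positivity)))))
    · exact min_le_left _ _
    · exact (min_le_right _ _).trans (min_le_left _ _)
    · have e1 : min f₀ (min eZ (min (ε / K1) (min (ε / K2) (min (ε / K3) (1 / 2 ^ (p + 2)))))) ≤
          ε / K1 := (min_le_right _ _).trans ((min_le_right _ _).trans (min_le_left _ _))
      rw [le_div_iff₀ hK10] at e1
      linarith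
    · have e1 : min f₀ (min eZ (min (ε / K1) (min (ε / K2) (min (ε / K3) (1 / 2 ^ (p + 2)))))) ≤
          ε / K2 := (min_le_right _ _).trans ((min_le_right _ _).trans ((min_le_right _ _).trans
            (min_le_left _ _)))
      rw [le_div_iff₀ hK20] at e1
      linarith
    · have e1 : min f₀ (min eZ (min (ε / K1) (min (ε / K2) (min (ε / K3) (1 / 2 ^ (p + 2)))))) ≤
          ε / K3 := (min_le_right _ _).trans ((min_le_right _ _).trans ((min_le_right _ _).trans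
            ((min_le_right _ _).trans (min_le_left _ _))))
      rw [le_div_iff₀ hK30] at e1
      linarith
    · have e1 : min f₀ (min eZ (min (ε / K1) (min (ε / K2) (min (ε / K3) (1 / 2 ^ (p + 2)))))) ≤
          1 / 2 ^ (p + 2) := (min_le_right _ _).trans ((min_le_right _ _).trans
            ((min_le_right _ _).trans ((min_le_right _ _).trans (min_le_right _ _))))
      have h2p : (0 : ℝ) < 2 ^ (p + 2) := by positivity
      rw [le_div_iff₀ h2p] at e1
      linarith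
  refine ⟨E, hE0, hE2.trans heZ1, ?_⟩
  -- the choice of `a₀`
  set K4 : ℝ := c * φ * r * C' * ((p : ℝ) + 4) ^ (p + 2) with hK4
  set K5 : ℝ := C' ^ 2 * ((p : ℝ) + 4) ^ w with hK5
  obtain ⟨aK, haK⟩ := exists_nat_ge (8 * (K4 + K5 + K3) / ε)
  have hK40 : 0 ≤ K4 := by rw [hK4]; positivity
  have hK50 : 0 ≤ K5 := by rw [hK5]; positivity
  refine ⟨max (max aC aZ) (max (max aK r) 2), fun a ha V _ G e W P U he0 heE hS hCB hWΔ hWC => ?_⟩
  have haC : aC ≤ a := (le_max_left _ _).trans ((le_max_left _ _).trans ha)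
  have haZ : aZ ≤ a := (le_max_right _ _).trans ((le_max_left _ _).trans ha)
  have haK' : aK ≤ a := (le_max_left _ _).trans ((le_max_left _ _).trans
    ((le_max_right _ _).trans ha))
  have har : r ≤ a := (le_max_right _ _).trans ((le_max_left _ _).trans
    ((le_max_right _ _).trans ha))
  have ha2 : 2 ≤ a := (le_max_right _ _).trans ((le_max_right _ _).trans ha)
  have ha2R : (2 : ℝ) ≤ a := by exact_mod_cast ha2
  have ha0R : (0 : ℝ) < a := by linarith
  have harR : (r : ℝ) ≤ a := by exact_mod_cast har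
  have hKa : 8 * (K4 + K5 + K3) ≤ ε * a := by
    have e1 : 8 * (K4 + K5 + K3) / ε ≤ a := haK.trans (by exact_mod_cast haK')
    rw [div_le_iff₀ hε] at e1
    linarith
  have he12 : e ≤ 1 / 2 := heE.trans (hE2.trans heZ1)
  have he1 : e ≤ 1 := by linarith
  have hPar := hS.par
  have hcW := card_W hS.disU hS.cov
  have hcX := card_un hPar
  set X := un P with hX
  set Δ : ℕ := (p + 3) * a + r with hΔ
  -- the numbers
  have hXΔ : X.card ≤ Δ := by omega
  obtain ⟨x, hx⟩ : ∃ x : ℕ, X.card + x = Δ := ⟨Δ - X.card, by omega⟩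
  have hxR : ((Δ : ℕ) : ℝ) - X.card = x := by
    have : ((X.card + x : ℕ) : ℝ) = (Δ : ℝ) := by rw [hx]
    push_cast at this
    linarith
  set u : ℝ := (U.card : ℝ) with hu
  have hu0 : 0 ≤ u := Nat.cast_nonneg _
  have huC : u ≤ C' := hS.cU
  set d : ℝ := ((Δ : ℕ) : ℝ) - W.card with hd
  have hdC : d ≤ C' := by rw [hd]; linarith
  have hxd : (x : ℝ) = d + u := by
    have : (W.card : ℝ) = X.card + u := by rw [hcW]; push_cast; rfl
    rw [hd, ← hxR, this]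
    ring
  have hxC : (x : ℝ) ≤ 2 * C' := by linarith
  have hx0 : (0 : ℝ) ≤ x := Nat.cast_nonneg _
  have hWR : (W.card : ℝ) ≤ ((p : ℝ) + 4) * a := by
    have e1 : (W.card : ℝ) ≤ (Δ : ℝ) := by exact_mod_cast hWΔ
    rw [hΔ] at e1
    push_cast at e1
    linarith
  set A : ℝ := (a : ℝ) ^ (w + 1) with hA
  set Aw : ℝ := (a : ℝ) ^ w with hAw
  have hAAw : A = Aw * a := by rw [hA, hAw, pow_succ]
  have hA0 : 0 < A := by rw [hA]; positivity
  have hAw0 : 0 < Aw := by rw [hAw]; positivity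
  set M : ℝ := Mt p w r a with hM
  have hM0 : 0 ≤ M := by
    rw [hM]
    unfold Mt
    positivity
  have hMa : M * (a : ℝ) ^ (p + 3) = c * φ * A := by
    rw [hM]
    unfold Mt
    rw [div_mul_cancel₀ _ (by positivity)]
  have hMa2 : M * (a : ℝ) ^ (p + 2) = c * φ * Aw := by
    have e1 : M * (a : ℝ) ^ (p + 2) * a = c * φ * Aw * a := by
      calc M * (a : ℝ) ^ (p + 2) * a = M * (a : ℝ) ^ (p + 3) := by ring
        _ = c * φ * A := hMa
        _ = c * φ * Aw * a := by rw [hAAw]; ring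
    exact mul_right_cancel₀ ha0R.ne' e1
  set tt : ℝ := (tot G P : ℝ) with htt
  have htt0 : 0 ≤ tt := Nat.cast_nonneg _
  have httC : tt ≤ C * a := hS.tot
  -- (1)
  have g1 := mul_le_mul_of_nonneg_left (h6 G p r a W P U hPar hS.disU hS.cov) hM0
  rw [split, ← hX, ← hΔ, hxR, mul_add, mul_sub, mul_add] at g1
  -- (2)
  have hN : ((clq G X (p + 3)).card : ℝ) ≤ (1 + e) ^ (p + 3) * (a : ℝ) ^ (p + 3) := by
    have := card_N h8 G P hPar ((1 + e) * a) hS.hi
    rwa [mul_pow] at this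
  have g2 := H2 c φ A ((clq G X (p + 3)).card : ℝ) x M e E C' ε ((a : ℝ) ^ (p + 3)) (p + 3)
    hA0.le hx0 hxC hM0 he0 he1 hcφ.le hMa hN heE (by rw [hK1] at hE3; linarith)
  -- (3)
  have g3' := h2 G p w r a e f P ⟨hwp, hr1, hrp⟩ he0 hf0.le hPar hS.hi hS.mis
  rw [mul_pow] at g3'
  have g3 := H3 c φ A Aw M (∑ L ∈ clq G X (p + 3), mm G p r X L) tt e E C a ρ ((p : ℝ) + 3) ch
    ε f (p + 2) ((a : ℝ) ^ (p + 2)) hAw0.le hAAw ha0R.le hM0 he0 he1 hcφ.le hch0 hb3.le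
    hf0.le htt0 httC hMa2 g3' hρc heE (by rw [hK2, add_mul, one_mul] at hE4; linarith) hE6 hfK
  -- (4)
  have g4 : M * ((r : ℝ) * u * (W.card : ℝ) ^ (p + 2)) ≤ ε / 8 * A := by
    have e1 : (W.card : ℝ) ^ (p + 2) ≤ ((p : ℝ) + 4) ^ (p + 2) * (a : ℝ) ^ (p + 2) := by
      rw [← mul_pow]
      exact pow_le_pow_left₀ (Nat.cast_nonneg _) hWR _
    have e2 : (r : ℝ) * u * (W.card : ℝ) ^ (p + 2) ≤
        r * C' * (((p : ℝ) + 4) ^ (p + 2) * (a : ℝ) ^ (p + 2)) := by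
      refine mul_le_mul ?_ e1 (by positivity) (by positivity)
      exact mul_le_mul_of_nonneg_left huC (Nat.cast_nonneg _)
    have e3 := mul_le_mul_of_nonneg_left e2 hM0
    have e4 : M * (r * C' * (((p : ℝ) + 4) ^ (p + 2) * (a : ℝ) ^ (p + 2))) = K4 * Aw := by
      calc M * (r * C' * (((p : ℝ) + 4) ^ (p + 2) * (a : ℝ) ^ (p + 2))) =
          (M * (a : ℝ) ^ (p + 2)) * (r * C' * ((p : ℝ) + 4) ^ (p + 2)) := by ring
        _ = K4 * Aw := by rw [hMa2, hK4]; ring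
    have e5 : K4 * Aw ≤ ε / 8 * a * Aw := mul_le_mul_of_nonneg_right (by linarith) hAw0.le
    rw [hAAw]
    linarith
  -- (5)
  have hlo0 : (0 : ℝ) ≤ (1 - e) * a := mul_nonneg (by linarith) ha0R.le
  have g5 := h5 p w a r x (⌊(1 - e) * (a : ℝ)⌋₊) (sz P) hrp (by
      unfold sz
      rw [← hcX, hx]) (by
      intro i
      unfold sz
      have e1 : ((⌊(1 - e) * (a : ℝ)⌋₊ : ℕ) : ℝ) ≤ ((P i).card : ℝ) :=
        (Nat.floor_le hlo0).trans (hS.lo i)
      exact_mod_cast e1)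
  have g5' : (es (sz P) (w + 2) : ℝ) + x * (c * ((⌊(1 - e) * (a : ℝ)⌋₊ : ℕ) : ℝ) ^ (w + 1)) ≤
      (TT (p + 3) (w + 2) a r : ℝ) := by
    have e1 : ((es (sz P) (w + 2) + x * ((p + 2).choose (w + 1) *
        ⌊(1 - e) * (a : ℝ)⌋₊ ^ (w + 1)) : ℕ) : ℝ) ≤ (TT (p + 3) (w + 2) a r : ℝ) := by
      exact_mod_cast g5
    push_cast at e1
    rw [hc]
    unfold c1
    exact e1
  have g9 := H9 a e ((⌊(1 - e) * (a : ℝ)⌋₊ : ℕ) : ℝ) x c C' ε E (w + 1) ha2R he0 he12
    (by have := Nat.lt_floor_add_one ((1 - e) * (a : ℝ)); linarith) hx0 hxC hc0.le heE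
    (by rw [hK3] at hE5; linarith) (by
      have q1 : K3 ≤ ε / 8 * a := by linarith
      have q2 : c * (2 * C') * ((w + 1 : ℕ) : ℝ) = K3 / 8 := by rw [hK3]; ring
      linarith)
  rw [← hA] at g9
  -- (6)
  have g6 := hCMP a haC G e f P he0 (heE.trans hE1) hff₀ hPar (fun i => ⟨hS.lo i, hS.hi i⟩)
    hS.mis hS.tot
  rw [← hX, ← htt, ← hch, ← hAw, ← hA] at g6
  -- (7)
  have g7 : (kc G W (w + 2) : ℝ) ≤ kc G X (w + 2) +
      ∑ z ∈ U, (kc G (nb G X z) (w + 1) : ℝ) + u ^ 2 * (W.card : ℝ) ^ w := by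
    have e1 := h4 G p w W P U hS.disU hS.cov
    have e2 : ((kc G W (w + 2) : ℕ) : ℝ) ≤ ((kc G (un P) (w + 2) +
        ∑ z ∈ U, kc G (nb G (un P) z) (w + 1) + U.card ^ 2 * W.card ^ w : ℕ) : ℝ) := by
      exact_mod_cast e1
    push_cast at e2
    exact e2
  -- (8)
  set nl : ℝ := 1 / (2 * ((p : ℝ) + 3) ^ 2) *
    ∑ z ∈ U, (nlow G p X z : ℝ) / (a : ℝ) ^ (p + 2 - w) with hnl
  have g8 : ∑ z ∈ U, (kc G (nb G X z) (w + 1) : ℝ) + nl ≤
      u * (c * (1 - φ) * A) + M * ∑ z ∈ U, TZ G p r X z + ε / 8 * A := by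
    have e1 : ∀ z ∈ U, (kc G (nb G X z) (w + 1) : ℝ) +
        1 / (2 * ((p : ℝ) + 3) ^ 2) * ((nlow G p X z : ℝ) / (a : ℝ) ^ (p + 2 - w)) ≤
        c * (1 - φ) * A + M * TZ G p r X z + ε / (8 * C') * A := by
      intro z hz
      have := hZST a haZ G e f C' W P U he0 (heE.trans hE2) hS hCB z hz
      rw [mul_div_assoc] at this
      exact this
    have e2 := sum_le_sum e1
    rw [sum_add_distrib, sum_add_distrib, sum_add_distrib, sum_const, sum_const, nsmul_eq_mul,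
      nsmul_eq_mul, ← mul_sum, ← mul_sum] at e2
    have e3 : u * (ε / (8 * C') * A) ≤ ε / 8 * A := by
      have e4 : u * (ε / (8 * C')) ≤ C' * (ε / (8 * C')) :=
        mul_le_mul_of_nonneg_right huC (by positivity)
      have e5 : C' * (ε / (8 * C')) = ε / 8 := by field_simp
      calc u * (ε / (8 * C') * A) = u * (ε / (8 * C')) * A := by ring
        _ ≤ ε / 8 * A := mul_le_mul_of_nonneg_right (by linarith) hA0.le
    rw [hnl]
    linarith
  -- (10)
  have g10 : u ^ 2 * (W.card : ℝ) ^ w ≤ ε / 8 * A := by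
    have e1 : (W.card : ℝ) ^ w ≤ ((p : ℝ) + 4) ^ w * Aw := by
      rw [hAw, ← mul_pow]
      exact pow_le_pow_left₀ (Nat.cast_nonneg _) hWR _
    have e2 : u ^ 2 ≤ C' ^ 2 := pow_le_pow_left₀ hu0 huC 2
    have e3 : u ^ 2 * (W.card : ℝ) ^ w ≤ C' ^ 2 * (((p : ℝ) + 4) ^ w * Aw) :=
      mul_le_mul e2 e1 (by positivity) (by positivity)
    have e4 : C' ^ 2 * (((p : ℝ) + 4) ^ w * Aw) = K5 * Aw := by rw [hK5]; ring
    have e5 : K5 * Aw ≤ ε / 8 * a * Aw := mul_le_mul_of_nonneg_right (by linarith) hAw0.le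
    rw [hAAw]
    linarith
  unfold df
  have e : c * φ * A * x + (1 - φ) * c * A * d + u * (c * (1 - φ) * A) = c * x * A := by
    rw [hxd]; ring
  linarith

end Pool.IA7
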